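import Pool.Agent.Helper88.QT.St2
import Pool.Agent.Helper85.QT.St1

set_option autoImplicit false

open MeasureTheory Matrix Set Topology
open scoped ENNReal ComplexConjugate

namespace Pool.Agent.Helper76.QT

open Pool.Agent.Helper88.QT Pool.Agent.Helper85.QT Pool.Agent.Helper86.QA

private theorem ti_eq {Γ : Type} [Group Γ] (ρ : Γ →* SL) (α : Γ) (lam : ℂ) (i : Li α) (x : Pt) :
    Ti ρ α lam i x = TT lam (ga (ρ (Quotient.out i)⁻¹) x) := rfl

private theorem crossing (hGPM : StGPM) (hGPT : StGPT) (hENT : StENT)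
    {Γ : Type} [Group Γ] (ρ : Γ →* SL) (α : Γ) (lam : ℂ) (hl : lam ≠ 0)
    (hl2 : ‖lam‖ ≤ 1 / 3200) (a b : ℂ) (hab : a ≠ b) (ra : Reg ρ a) (rb : Reg ρ b) (i : Li α)
    (v : ℝ) (hv : 2 * cz < Ti ρ α lam i (gp a b v)) :
    ∃ s t : ℝ, s < v ∧ v < t ∧
      (∀ w : ℝ, 2 * cz < Ti ρ α lam i (gp a b w) ↔ w ∈ Ioo s t) ∧
      Ti ρ α lam i (gp a b s) = 2 * cz ∧ Ti ρ α lam i (gp a b t) = 2 * cz ∧
      fd lam (rd (ga (ρ (Quotient.out i)⁻¹) (gp a b s))) (mb (ρ (Quotient.out i)⁻¹) b) ≤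
        16 * cz ∧
      fd lam (rd (ga (ρ (Quotient.out i)⁻¹) (gp a b t))) (mb (ρ (Quotient.out i)⁻¹) a) ≤
        16 * cz ∧
      (∀ w : ℝ, s - 1 / 4 < w → w < t + 1 / 4 → cz < Ti ρ α lam i (gp a b w)) := by
  obtain ⟨ra1, ra2⟩ := ra (Quotient.out i)⁻¹
  obtain ⟨rb1, rb2⟩ := rb (Quotient.out i)⁻¹
  have hne := (hGPM.2.1 (ρ (Quotient.out i)⁻¹) a b 0 hab ra1 rb1).1
  obtain ⟨κ, hκ⟩ : ∃ κ : ℝ, ∀ w : ℝ, ga (ρ (Quotient.out i)⁻¹) (gp a b w) =
      gp (mb (ρ (Quotient.out i)⁻¹) a) (mb (ρ (Quotient.out i)⁻¹) b) (w + κ) :=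
    ⟨_, fun w => (hGPM.2.1 (ρ (Quotient.out i)⁻¹) a b w hab ra1 rb1).2⟩
  have ha0 : mb (ρ (Quotient.out i)⁻¹) a ≠ 0 := div_ne_zero ra2 ra1
  have hb0 : mb (ρ (Quotient.out i)⁻¹) b ≠ 0 := div_ne_zero rb2 rb1
  have hT : ∀ w : ℝ, Ti ρ α lam i (gp a b w) =
      TT lam (gp (mb (ρ (Quotient.out i)⁻¹) a) (mb (ρ (Quotient.out i)⁻¹) b) (w + κ)) := by
    intro w
    rw [ti_eq, hκ]
  have hcz : (0 : ℝ) < 2 * cz := by unfold cz; norm_num
  obtain ⟨s', t', h1, h2, h3, h4, h5, h6, h7, h8⟩ :=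
    (hGPT lam _ _ hl ha0 hb0 hne).2 (2 * cz) (v + κ) hcz (by rw [← hT]; exact hv)
  have hsm : ‖lam‖ * (2 * cz) ≤ 1 / 16 := by
    unfold cz
    linarith
  refine ⟨s' - κ, t' - κ, by linarith, by linarith, ?_, ?_, ?_, ?_, ?_, ?_⟩
  · intro w
    rw [hT, h5]
    constructor
    · rintro ⟨p, q⟩
      exact ⟨by linarith, by linarith⟩
    · rintro ⟨p, q⟩
      exact ⟨by linarith, by linarith⟩
  · rw [hT, sub_add_cancel, h3]
  · rw [hT, sub_add_cancel, h4]
  · rw [hκ, sub_add_cancel]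
    have h9 := (hENT lam _ _ s' hl ha0 hb0 hne (by rw [h3]; exact hsm)).1 h6
    rw [h3] at h9
    linarith
  · rw [hκ, sub_add_cancel]
    have h9 := (hENT lam _ _ t' hl ha0 hb0 hne (by rw [h4]; exact hsm)).2 h7
    rw [h4] at h9
    linarith
  · intro w hw1 hw2
    have h9 := h8 (w + κ) (by linarith) (by linarith)
    rw [hT]
    linarith

theorem hINT (hACT : Pool.Agent.Helper86.QA.StACT) (hCHV : Pool.Agent.Helper86.QA.StCHV)
    (hXPT : Pool.Agent.Helper88.QT.StXPT) (hGPM : Pool.Agent.Helper88.QT.StGPM)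
    (hGPT : Pool.Agent.Helper88.QT.StGPT) (hENT : Pool.Agent.Helper88.QT.StENT)
    (hZS1 : Pool.Agent.Helper88.QT.StZS1) : Pool.Agent.Helper88.QT.StINT := by
  intro Γ _ ρ A B α lam M G m φ C3 hA hlam
  have hl : lam ≠ 0 := by
    intro h
    have := hA.re
    rw [h] at this
    simp at this
  have part1 : ∀ i j : Li α, ∀ x ∈ up, 12 ≤ Ti ρ α lam i x → 12 ≤ Ti ρ α lam j x → i = j := by
    intro i j x hx hi hj
    rw [ti_eq] at hi hj
    have hy : ga (ρ (Quotient.out i)⁻¹) x ∈ up := (hACT.1 _ _ hx).2.1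
    have h1 : Tg ρ lam ((Quotient.out i)⁻¹ * Quotient.out j) (ga (ρ (Quotient.out i)⁻¹) x)
        = TT lam (ga (ρ (Quotient.out j)⁻¹) x) := by
      unfold Tg
      rw [← hACT.2.1 _ _ _ hx, ← map_mul]
      congr 3
      group
    obtain ⟨n, hn⟩ := hZS1 Γ ρ A B α lam M G m φ C3 hA _ hy ((Quotient.out i)⁻¹ * Quotient.out j)
      hi (by rw [h1]; exact hj)
    have h2 : (QuotientGroup.mk (Quotient.out i) : Li α) = QuotientGroup.mk (Quotient.out j) := by
      rw [QuotientGroup.eq, hn]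
      exact ⟨n, rfl⟩
    have h3 : ∀ k : Li α, (QuotientGroup.mk (Quotient.out k) : Li α) = k := fun k =>
      QuotientGroup.out_eq' k
    rw [h3, h3] at h2
    exact h2
  refine ⟨part1, ?_⟩
  intro a b u u' hadm
  have hup : ∀ w, gp a b w ∈ up := fun w => (hGPM.1 a b w w hadm.ne).1
  have hex : ∀ i : Li α, ∃ s t : ℝ, i ∈ Cr ρ α lam a b u u' → (u ≤ s ∧ s < t ∧ t ≤ u' ∧
      (∀ w : ℝ, 2 * cz < Ti ρ α lam i (gp a b w) ↔ w ∈ Ioo s t) ∧
      Ti ρ α lam i (gp a b s) = 2 * cz ∧ Ti ρ α lam i (gp a b t) = 2 * cz ∧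
      fd lam (rd (ga (ρ (Quotient.out i)⁻¹) (gp a b s))) (mb (ρ (Quotient.out i)⁻¹) b) ≤
        16 * cz ∧
      fd lam (rd (ga (ρ (Quotient.out i)⁻¹) (gp a b t))) (mb (ρ (Quotient.out i)⁻¹) a) ≤
        16 * cz ∧
      (∀ w : ℝ, s - 1 / 4 < w → w < t + 1 / 4 → cz < Ti ρ α lam i (gp a b w))) := by
    intro i
    by_cases hi : i ∈ Cr ρ α lam a b u u'
    · obtain ⟨v, hv, hv2⟩ := hi
      obtain ⟨s, t, h1, h2, h3, h4, h5, h6, h7, h8⟩ := crossing hGPM hGPT hENT ρ α lam hl hlam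
        a b hadm.ne hadm.ra hadm.rb i v hv2
      refine ⟨s, t, fun _ => ⟨?_, by linarith, ?_, h3, h4, h5, h6, h7, h8⟩⟩
      · by_contra h
        push Not at h
        have := (h3 u).2 ⟨h, lt_of_le_of_lt hv.1 h2⟩
        exact absurd (hadm.st i) (not_le.2 this)
      · by_contra h
        push Not at h
        have := (h3 u').2 ⟨lt_of_lt_of_le h1 hv.2, h⟩
        exact absurd (hadm.en i) (not_le.2 this)
    · exact ⟨0, 0, fun h => absurd h hi⟩
  choose s t hst using hex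
  have hcz : (12 : ℝ) ≤ cz := by unfold cz; norm_num
  have hcz2 : cz ≤ 2 * cz := by unfold cz; norm_num
  -- separation
  have hsep : ∀ i ∈ Cr ρ α lam a b u u', ∀ j ∈ Cr ρ α lam a b u u', i ≠ j →
      t i + 1 / 4 ≤ s j - 1 / 4 ∨ t j + 1 / 4 ≤ s i - 1 / 4 := by
    intro i hi j hj hij
    obtain ⟨a1, a2, a3, a4, a5, a6, a7, a8, a9⟩ := hst i hi
    obtain ⟨b1, b2, b3, b4, b5, b6, b7, b8, b9⟩ := hst j hj
    by_contra h
    push Not at h
    obtain ⟨h1, h2⟩ := h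
    apply hij
    have h3 : max (s i) (s j) - 1 / 4 < min (t i) (t j) + 1 / 4 := by
      rcases max_choice (s i) (s j) with h | h <;> rcases min_choice (t i) (t j) with h' | h' <;>
        rw [h, h'] <;> linarith
    have m1 := le_max_left (s i) (s j)
    have m2 := le_max_right (s i) (s j)
    have m3 := min_le_left (t i) (t j)
    have m4 := min_le_right (t i) (t j)
    obtain ⟨w, w1, w2⟩ := exists_between h3
    refine part1 i j (gp a b w) (hup w) ?_ ?_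
    · exact hcz.trans (a9 w (by linarith) (by linarith)).le
    · exact hcz.trans (b9 w (by linarith) (by linarith)).le
  have hdis : ∀ i ∈ Cr ρ α lam a b u u', ∀ j ∈ Cr ρ α lam a b u u', i ≠ j →
      t i ≤ s j ∨ t j ≤ s i := by
    intro i hi j hj hij
    rcases hsep i hi j hj hij with h | h
    · left; linarith
    · right; linarith
  refine ⟨?_, s, t, ?_, hdis, ?_⟩
  · -- finiteness
    refine Set.Finite.of_injOn (f := fun i => ⌊2 * (s i - u)⌋)
      (t := Icc (0 : ℤ) ⌊2 * (u' - u)⌋) ?_ ?_ (Set.finite_Icc _ _)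
    · intro i hi
      obtain ⟨a1, a2, a3, -⟩ := hst i hi
      refine ⟨Int.floor_nonneg.2 (by linarith), Int.floor_le_floor (by linarith)⟩
    · intro i hi j hj hij
      by_contra hne
      obtain ⟨a1, a2, a3, -⟩ := hst i hi
      obtain ⟨b1, b2, b3, -⟩ := hst j hj
      have h1 := Int.abs_sub_lt_one_of_floor_eq_floor hij
      rw [abs_lt] at h1
      rcases hsep i hi j hj hne with h | h
      · linarith [h1.1]
      · linarith [h1.2]
  · intro i hi
    obtain ⟨a1, a2, a3, a4, a5, a6, a7, a8, a9⟩ := hst i hi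
    exact ⟨a1, a2, a3, a4, a5, a6, a7, a8⟩
  · intro j hj
    obtain ⟨b1, b2, b3, b4, b5, b6, b7, b8, b9⟩ := hst j hj
    have hmem : ∀ i : Li α, ∀ v, t j ≤ v → v ≤ u' → 2 * cz < Ti ρ α lam i (gp a b v) →
        i ∈ Cr ρ α lam a b u u' ∧ t j ≤ s i := by
      intro i v hv1 hv2 hv3
      have hi : i ∈ Cr ρ α lam a b u u' := ⟨v, ⟨by linarith, hv2⟩, hv3⟩
      refine ⟨hi, ?_⟩
      obtain ⟨a1, a2, a3, a4, -⟩ := hst i hi
      have h4 := (a4 v).1 hv3
      have hne : i ≠ j := by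
        rintro rfl
        exact absurd h4.2 (not_lt.2 hv1)
      rcases hdis i hi j hj hne with h | h
      · exfalso
        linarith [h4.2]
      · exact h
    refine ⟨⟨hadm.la, hadm.lb, hadm.ne, hadm.ra, hadm.rb, b3, ?_, hadm.en⟩, ?_⟩
    · intro i
      by_contra h
      push Not at h
      obtain ⟨hi, h1⟩ := hmem i (t j) le_rfl b3 h
      obtain ⟨a1, a2, a3, a4, -⟩ := hst i hi
      exact absurd ((a4 _).1 h).1 (not_lt.2 h1)
    · ext i
      constructor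
      · rintro ⟨v, hv, hv2⟩
        obtain ⟨hi, h1⟩ := hmem i v hv.1 hv.2 hv2
        exact ⟨hi, by linarith⟩
      · rintro ⟨hi, h1⟩
        obtain ⟨a1, a2, a3, a4, -⟩ := hst i hi
        have hne : i ≠ j := by
          rintro rfl
          exact lt_irrefl _ h1
        have h2 : t j ≤ s i := by
          rcases hdis i hi j hj hne with h | h
          · exfalso; linarith
          · exact h
        obtain ⟨w, w1, w2⟩ := exists_between a2
        exact ⟨w, ⟨by linarith, by linarith⟩, (a4 w).2 ⟨w1, w2⟩⟩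

end Pool.Agent.Helper76.QT
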